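import Pool.Agent.H93.EGM.Two

/-!
# Every 2-colouring of the plane has monochromatic copies of all triangles, except possibly of one
# equilateral triangle
-/

set_option autoImplicit false

namespace Pool.Agent.Results.MP_819c64_co.AllButOne

/-- The Euclidean plane. -/
abbrev Plane : Type := EuclideanSpace ℝ (Fin 2)

/-- The triangle with vertices `p`, `q`, `r` occurs in `C`: the image of its vertex set under some
isometry of the plane is contained in `C`. -/
def Occurs (C : Set Plane) (p q r : Plane) : Prop :=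
  ∃ φ : Plane → Plane, Isometry φ ∧ φ p ∈ C ∧ φ q ∈ C ∧ φ r ∈ C

/-- Identification of the complex numbers with the plane. -/
noncomputable def e : ℂ ≃ₗᵢ[ℝ] Plane := Complex.orthonormalBasisOneI.repr

open Classical in
/-- The colouring of the complex plane given by the first class. -/
noncomputable def col (C₁ : Set Plane) (z : ℂ) : Bool := decide (e z ∈ C₁)

theorem norm_e (x y : Plane) : ‖e.symm x - e.symm y‖ = dist x y := by
  rw [← map_sub, LinearIsometryEquiv.norm_map, dist_eq_norm]

theorem occurs_of_mono (C₁ C₂ : Set Plane) (hC : C₁ ∪ C₂ = Set.univ) (p q r : Plane) (θ w : ℂ)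
    (hθ : ‖θ‖ = 1) (h1 : col C₁ (θ * e.symm p + w) = col C₁ (θ * e.symm q + w))
    (h2 : col C₁ (θ * e.symm q + w) = col C₁ (θ * e.symm r + w)) :
    Occurs C₁ p q r ∨ Occurs C₂ p q r := by
  classical
  have iso : Isometry (fun x : Plane => e (θ * e.symm x + w)) := by
    refine Isometry.of_dist_eq (fun x y => ?_)
    rw [LinearIsometryEquiv.dist_map, dist_eq_norm, dist_eq_norm]
    have : θ * e.symm x + w - (θ * e.symm y + w) = θ * e.symm (x - y) := by
      rw [map_sub]
      ring
    rw [this, norm_mul, hθ, one_mul, LinearIsometryEquiv.norm_map]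
  have hmem : ∀ x, x ∉ C₁ → x ∈ C₂ := by
    intro x hx
    have : x ∈ C₁ ∪ C₂ := by rw [hC]; trivial
    exact this.resolve_left hx
  simp only [col, decide_eq_decide] at h1 h2
  by_cases hq : e (θ * e.symm q + w) ∈ C₁
  · exact Or.inl ⟨_, iso, h1.mpr hq, hq, h2.mp hq⟩
  · exact Or.inr ⟨_, iso, hmem _ fun h => hq (h1.mp h), hmem _ hq, hmem _ fun h => hq (h2.mpr h)⟩

/-- Non-equilateral triangles. -/
theorem occurs_of_ne (C₁ C₂ : Set Plane) (hC : C₁ ∪ C₂ = Set.univ) (p q r : Plane)
    (hne : ¬ (dist p q = dist q r ∧ dist q r = dist r p)) :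
    Occurs C₁ p q r ∨ Occurs C₂ p q r := by
  obtain ⟨θ, w, hθ, h1, h2⟩ := Pool.Agent.H93.EG.main_d (e.symm p) (e.symm q) (e.symm r)
    (by rw [norm_e, norm_e, norm_e]; exact hne) (col C₁)
  exact occurs_of_mono C₁ C₂ hC p q r θ w hθ h1 h2

/-- Equilateral triangles of two different sizes. -/
theorem two_sizes (C₁ C₂ : Set Plane) (hC : C₁ ∪ C₂ = Set.univ) (s t : ℝ) (hs : 0 < s)
    (hst : s < t) (p q r p' q' r' : Plane)
    (h : dist p q = s ∧ dist q r = s ∧ dist r p = s)
    (h' : dist p' q' = t ∧ dist q' r' = t ∧ dist r' p' = t)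
    (hno : ¬ (Occurs C₁ p q r ∨ Occurs C₂ p q r))
    (hno' : ¬ (Occurs C₁ p' q' r' ∨ Occurs C₂ p' q' r')) : False :=
  Pool.Agent.H93.EG.two_eq (col C₁) (e.symm p) (e.symm q) (e.symm r) (e.symm p') (e.symm q')
    (e.symm r') s t hs hst (by rw [norm_e]; exact h.1) (by rw [norm_e]; exact h.2.1)
    (by rw [norm_e]; exact h.2.2) (by rw [norm_e]; exact h'.1) (by rw [norm_e]; exact h'.2.1)
    (by rw [norm_e]; exact h'.2.2)
    (fun θ w hθ hh => hno (occurs_of_mono C₁ C₂ hC p q r θ w hθ hh.1 hh.2))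
    (fun θ w hθ hh => hno' (occurs_of_mono C₁ C₂ hC p' q' r' θ w hθ hh.1 hh.2))

/-- Let the plane be the union of two sets (no measurability). Then there is a length `s > 0` such
that every triple of points `p`, `q`, `r` (collinear triples are allowed), except possibly the
vertex sets of equilateral triangles with side `s`, occurs in one of the two sets. -/
theorem result (C₁ C₂ : Set Plane) (hC : C₁ ∪ C₂ = Set.univ) :
    ∃ s : ℝ, 0 < s ∧ ∀ p q r : Plane, ¬ (dist p q = s ∧ dist q r = s ∧ dist r p = s) →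
      Occurs C₁ p q r ∨ Occurs C₂ p q r := by
  -- an equilateral triple of size zero occurs
  have hzero : ∀ p q r : Plane, dist p q = 0 → dist q r = 0 →
      Occurs C₁ p q r ∨ Occurs C₂ p q r := by
    intro p q r h1 h2
    have e1 : p = q := dist_eq_zero.mp h1
    have e2 : q = r := dist_eq_zero.mp h2
    subst e1
    subst e2
    have : p ∈ C₁ ∪ C₂ := by rw [hC]; trivial
    rcases this with h | h
    · exact Or.inl ⟨id, isometry_id, h, h, h⟩
    · exact Or.inr ⟨id, isometry_id, h, h, h⟩
  by_cases hex : ∃ s : ℝ, 0 < s ∧ ∃ p q r : Plane, (dist p q = s ∧ dist q r = s ∧ dist r p = s) ∧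
      ¬ (Occurs C₁ p q r ∨ Occurs C₂ p q r)
  · obtain ⟨s, hs, p, q, r, hpqr, hno⟩ := hex
    refine ⟨s, hs, fun p' q' r' hne' => ?_⟩
    by_cases heq : dist p' q' = dist q' r' ∧ dist q' r' = dist r' p'
    · by_contra hno'
      have ht0 : 0 ≤ dist p' q' := dist_nonneg
      rcases ht0.eq_or_lt with h0 | h0
      · exact hno' (hzero p' q' r' h0.symm (heq.1.symm.trans h0.symm))
      · have h' : dist p' q' = dist p' q' ∧ dist q' r' = dist p' q' ∧ dist r' p' = dist p' q' :=
          ⟨rfl, heq.1.symm, (heq.1.trans heq.2).symm⟩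
        have hst : dist p' q' ≠ s := fun h => hne' ⟨h, h'.2.1.trans h, h'.2.2.trans h⟩
        rcases lt_or_gt_of_ne hst with h | h
        · exact two_sizes C₁ C₂ hC _ s h0 h p' q' r' p q r h' hpqr hno' hno
        · exact two_sizes C₁ C₂ hC s _ hs h p q r p' q' r' hpqr h' hno hno'
    · exact occurs_of_ne C₁ C₂ hC p' q' r' heq
  · refine ⟨1, one_pos, fun p q r _ => ?_⟩
    by_cases heq : dist p q = dist q r ∧ dist q r = dist r p
    · by_contra hno
      have ht0 : 0 ≤ dist p q := dist_nonneg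
      rcases ht0.eq_or_lt with h0 | h0
      · exact hno (hzero p q r h0.symm (heq.1.symm.trans h0.symm))
      · exact hex ⟨dist p q, h0, p, q, r, ⟨rfl, heq.1.symm, (heq.1.trans heq.2).symm⟩, hno⟩
    · exact occurs_of_ne C₁ C₂ hC p q r heq

end Pool.Agent.Results.MP_819c64_co.AllButOne
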