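import Pool.Agent.H79.OC.Geo2

/-!
# One class of every 2-colouring of the plane contains all triangles whose largest angle is at most
162 degrees and which are not acute or have a longest side of at least 3/2 times the shortest side
-/

set_option autoImplicit false

namespace Pool.Agent.Results.MP_819c64_co.OneClass

open EuclideanGeometry Real

/-- The Euclidean plane. -/
abbrev Plane : Type := EuclideanSpace ℝ (Fin 2)

/-- The triangle with vertices `p`, `q`, `r` occurs in `C`: the image of its vertex set under some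
isometry of the plane is contained in `C`. -/
def Occurs (C : Set Plane) (p q r : Plane) : Prop :=
  ∃ φ : Plane → Plane, Isometry φ ∧ φ p ∈ C ∧ φ q ∈ C ∧ φ r ∈ C

/-- The angle at `q` is at most 162 degrees and, moreover, it is at least 90 degrees or
`|qr| ≤ |pq| ≤ |pr|` and `|pr| ≥ (3/2) |qr|`. -/
def Fam (p q r : Plane) : Prop :=
  p ≠ q ∧ r ≠ q ∧ ∠ p q r ≤ 9 * π / 10 ∧ (π / 2 ≤ ∠ p q r ∨
    (dist q r ≤ dist p q ∧ dist p q ≤ dist p r ∧ 3 / 2 * dist q r ≤ dist p r))

/-- If the plane is covered by two sets, then one and the same of them contains a congruent copy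
of every triangle of the family. -/
theorem result (C₁ C₂ : Set Plane) (hC : C₁ ∪ C₂ = Set.univ) :
    (∀ p q r : Plane, Fam p q r → Occurs C₁ p q r) ∨
    (∀ p q r : Plane, Fam p q r → Occurs C₂ p q r) := by
  by_contra hcon
  rw [not_or] at hcon
  obtain ⟨h1, h2⟩ := hcon
  push Not at h1 h2
  obtain ⟨p, q, r, ⟨hpq, hrq, ha⟩, hn⟩ := h1
  obtain ⟨p', q', r', ⟨hpq', hrq', ha'⟩, hn'⟩ := h2
  exact Pool.Agent.H79.OC.one_class2 C₁ C₂ hC p q r p' q' r' hpq hrq hpq' hrq' ha ha' hn hn'

end Pool.Agent.Results.MP_819c64_co.OneClass
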