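import Pool.Agent.H79.DF.Main

/-!
# A class that misses a 30-60-90 triangle leaves all triangles to the other class

For every covering of the plane by two arbitrary sets: if some triangle with angles 30, 60, 90
degrees does not occur in the second set, then every triangle occurs in the first one.
-/

set_option autoImplicit false

namespace Pool.Agent.Results.MP_819c64_co.ThirtySixtyNinety

open ComplexConjugate Pool.Agent.H79.DF

/-- The Euclidean plane. -/
abbrev Plane : Type := EuclideanSpace ℝ (Fin 2)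

/-- The triangle with vertices `p`, `q`, `r` occurs in `C`: the image of its vertex set under some
isometry of the plane is contained in `C`. -/
def Occurs (C : Set Plane) (p q r : Plane) : Prop :=
  ∃ φ : Plane → Plane, Isometry φ ∧ φ p ∈ C ∧ φ q ∈ C ∧ φ r ∈ C

/-- Identification of the complex numbers with the plane. -/
noncomputable def e : ℂ ≃ₗᵢ[ℝ] Plane := Complex.orthonormalBasisOneI.repr

/-- Two congruent triples of complex numbers are related by an isometry. -/
theorem sss (P Q R Z₁ Z₂ Z₃ : ℂ) (hPQ : P ≠ Q) (h1 : ‖Z₁ - Z₂‖ = ‖P - Q‖)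
    (h2 : ‖Z₂ - Z₃‖ = ‖Q - R‖) (h3 : ‖Z₁ - Z₃‖ = ‖P - R‖) :
    ∃ φ : ℂ → ℂ, Isometry φ ∧ φ P = Z₁ ∧ φ Q = Z₂ ∧ φ R = Z₃ := by
  have hd : P - Q ≠ 0 := sub_ne_zero.2 hPQ
  have hdn : ‖P - Q‖ ≠ 0 := norm_ne_zero_iff.2 hd
  have hz : Z₁ - Z₂ ≠ 0 := by
    rw [← norm_ne_zero_iff, h1]
    exact hdn
  set s : ℂ := (R - Q) / (P - Q) with hs
  set t : ℂ := (Z₃ - Z₂) / (Z₁ - Z₂) with ht
  have hst : ‖s‖ = ‖t‖ := by
    rw [hs, ht, norm_div, norm_div, h1, norm_sub_rev R Q, norm_sub_rev Z₃ Z₂, h2]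
  have hst1 : ‖s - 1‖ = ‖t - 1‖ := by
    have e1 : s - 1 = (R - P) / (P - Q) := by
      rw [hs]
      field_simp
      ring
    have e2 : t - 1 = (Z₃ - Z₁) / (Z₁ - Z₂) := by
      rw [ht]
      field_simp
      ring
    rw [e1, e2, norm_div, norm_div, h1, norm_sub_rev R P, norm_sub_rev Z₃ Z₁, h3]
  have hsq : s.re * s.re + s.im * s.im = t.re * t.re + t.im * t.im := by
    have : ‖s‖ ^ 2 = ‖t‖ ^ 2 := by rw [hst]
    rwa [← Complex.normSq_eq_norm_sq, ← Complex.normSq_eq_norm_sq, Complex.normSq_apply,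
      Complex.normSq_apply] at this
  have hsq1 : (s.re - 1) * (s.re - 1) + s.im * s.im = (t.re - 1) * (t.re - 1) + t.im * t.im := by
    have : ‖s - 1‖ ^ 2 = ‖t - 1‖ ^ 2 := by rw [hst1]
    rw [← Complex.normSq_eq_norm_sq, ← Complex.normSq_eq_norm_sq, Complex.normSq_apply,
      Complex.normSq_apply] at this
    simpa using this
  have hre : s.re = t.re := by linarith
  have him : (s.im - t.im) * (s.im + t.im) = 0 := by
    rw [hre] at hsq
    linarith
  have hRs : R - Q = s * (P - Q) := by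
    rw [hs, div_mul_cancel₀ _ hd]
  have hZt : Z₃ - Z₂ = t * (Z₁ - Z₂) := by
    rw [ht, div_mul_cancel₀ _ hz]
  rcases mul_eq_zero.1 him with him | him
  · have hts : t = s := Complex.ext hre.symm (by linarith)
    refine ⟨fun z => Z₂ + (z - Q) * ((Z₁ - Z₂) / (P - Q)), ?_, ?_, ?_, ?_⟩
    · refine Isometry.of_dist_eq fun x y => ?_
      rw [dist_eq_norm, dist_eq_norm]
      have : Z₂ + (x - Q) * ((Z₁ - Z₂) / (P - Q)) - (Z₂ + (y - Q) * ((Z₁ - Z₂) / (P - Q))) =
          (x - y) * ((Z₁ - Z₂) / (P - Q)) := by ring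
      rw [this, norm_mul, norm_div, h1, div_self hdn, mul_one]
    · show Z₂ + (P - Q) * ((Z₁ - Z₂) / (P - Q)) = Z₁
      rw [mul_div_cancel₀ _ hd]
      ring
    · show Z₂ + (Q - Q) * ((Z₁ - Z₂) / (P - Q)) = Z₂
      ring
    · show Z₂ + (R - Q) * ((Z₁ - Z₂) / (P - Q)) = Z₃
      rw [hRs, mul_assoc, mul_div_cancel₀ _ hd, ← hts, ← hZt]
      ring
  · have hts : t = conj s := Complex.ext (by simp [hre]) (by simp; linarith)
    refine ⟨fun z => Z₂ + conj ((z - Q) / (P - Q)) * (Z₁ - Z₂), ?_, ?_, ?_, ?_⟩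
    · refine Isometry.of_dist_eq fun x y => ?_
      rw [dist_eq_norm, dist_eq_norm]
      have : Z₂ + conj ((x - Q) / (P - Q)) * (Z₁ - Z₂) -
          (Z₂ + conj ((y - Q) / (P - Q)) * (Z₁ - Z₂)) =
          conj ((x - y) / (P - Q)) * (Z₁ - Z₂) := by
        have e1 : (x - y) / (P - Q) = (x - Q) / (P - Q) - (y - Q) / (P - Q) := by ring
        rw [e1, map_sub]
        ring
      rw [this, norm_mul, RCLike.norm_conj, norm_div, h1, div_mul_cancel₀ _ hdn]
    · show Z₂ + conj ((P - Q) / (P - Q)) * (Z₁ - Z₂) = Z₁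
      rw [div_self hd, map_one]
      ring
    · show Z₂ + conj ((Q - Q) / (P - Q)) * (Z₁ - Z₂) = Z₂
      rw [sub_self, zero_div, map_zero]
      ring
    · show Z₂ + conj ((R - Q) / (P - Q)) * (Z₁ - Z₂) = Z₃
      rw [← hs, ← hts, ← hZt]
      ring

theorem occurs_of_main (C₁ C₂ : Set Plane) (hcov : C₁ ∪ C₂ = Set.univ)
    (hmiss : ∃ p q r : Plane, p ≠ q ∧ dist q r = Real.sqrt 3 * dist p q ∧
      dist p r = 2 * dist p q ∧ ¬ Occurs C₂ p q r)
    (p q r : Plane) (hpq : p ≠ q) (h1 : dist p q ≤ dist r p) (h2 : dist p q ≤ dist r q) :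
    Occurs C₁ p q r := by
  classical
  by_contra hno
  obtain ⟨p', q', r', hpq', hqr', hpr', hno'⟩ := hmiss
  set f : ℂ → Bool := fun z => decide (e z ∈ C₁) with hf
  have hft : ∀ z, f z = true ↔ e z ∈ C₁ := fun z => by simp [hf]
  have hff : ∀ z, f z = false → e z ∈ C₂ := by
    intro z hz
    have h3 : e z ∉ C₁ := by simpa [hf] using hz
    have h4 : e z ∈ C₁ ∪ C₂ := by rw [hcov]; exact Set.mem_univ _
    exact h4.resolve_left h3
  have hdist : ∀ x y : Plane, ‖e.symm x - e.symm y‖ = dist x y := by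
    intro x y
    rw [← dist_eq_norm, LinearIsometryEquiv.dist_map]
  have hne : ∀ x y : Plane, x ≠ y → e.symm x ≠ e.symm y := fun x y h h' =>
    h (e.symm.injective h')
  refine main_false f (e.symm p) (e.symm q) (e.symm r) (hne p q hpq) ?_ ?_ ?_ (dist p' q')
    (dist_pos.2 hpq') ?_
  · rw [hdist, hdist]
    exact h1
  · rw [hdist, hdist]
    exact h2
  · intro θ w hθ ⟨a1, a2, a3⟩
    refine hno ⟨fun z => e (θ * e.symm z + w), ?_, (hft _).1 a1, (hft _).1 a2, (hft _).1 a3⟩
    refine Isometry.of_dist_eq fun x y => ?_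
    rw [LinearIsometryEquiv.dist_map, dist_eq_norm, add_sub_add_right_eq_sub, ← mul_sub, norm_mul,
      hθ, one_mul, hdist]
  · intro z1 z2 z3 e1 e2 e3 ⟨a1, a2, a3⟩
    obtain ⟨φ, hφ, f1, f2, f3⟩ := sss (e.symm p') (e.symm q') (e.symm r') z1 z2 z3
      (hne _ _ hpq') (by rw [e1, hdist]) (by rw [e2, hdist, hqr']) (by rw [e3, hdist, hpr'])
    refine hno' ⟨fun z => e (φ (e.symm z)), ?_, ?_, ?_, ?_⟩
    · exact e.isometry.comp (hφ.comp e.symm.isometry)
    · show e (φ (e.symm p')) ∈ C₂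
      rw [f1]
      exact hff _ a1
    · show e (φ (e.symm q')) ∈ C₂
      rw [f2]
      exact hff _ a2
    · show e (φ (e.symm r')) ∈ C₂
      rw [f3]
      exact hff _ a3

/-- Let the plane be the union of two arbitrary sets. If a triangle with sides `a`, `√3 a`, `2 a`
does not occur in the second set, then every triangle occurs in the first set. -/
theorem result (C₁ C₂ : Set Plane) (hcov : C₁ ∪ C₂ = Set.univ)
    (hmiss : ∃ p q r : Plane, p ≠ q ∧ dist q r = Real.sqrt 3 * dist p q ∧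
      dist p r = 2 * dist p q ∧ ¬ Occurs C₂ p q r) :
    ∀ p q r : Plane, p ≠ q → q ≠ r → p ≠ r → Occurs C₁ p q r := by
  intro p q r hpq hqr hpr
  by_cases h1 : dist p q ≤ dist r p
  · by_cases h2 : dist p q ≤ dist r q
    · exact occurs_of_main C₁ C₂ hcov hmiss p q r hpq h1 h2
    · -- `r q` is the shortest side
      have h3 : dist r q ≤ dist p r := by
        rw [dist_comm p r]
        linarith
      have h4 : dist r q ≤ dist p q := by linarith
      obtain ⟨φ, hφ, a1, a2, a3⟩ := occurs_of_main C₁ C₂ hcov hmiss r q p hqr.symm h3 h4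
      exact ⟨φ, hφ, a3, a2, a1⟩
  · by_cases h2 : dist r p ≤ dist r q
    · have h3 : dist r p ≤ dist q r := by
        rw [dist_comm q r]
        exact h2
      have h4 : dist r p ≤ dist q p := by
        rw [dist_comm q p]
        linarith
      obtain ⟨φ, hφ, a1, a2, a3⟩ := occurs_of_main C₁ C₂ hcov hmiss r p q hpr.symm h3 h4
      exact ⟨φ, hφ, a2, a3, a1⟩
    · have h3 : dist r q ≤ dist p r := by
        rw [dist_comm p r]
        linarith
      have h4 : dist r q ≤ dist p q := by linarith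
      obtain ⟨φ, hφ, a1, a2, a3⟩ := occurs_of_main C₁ C₂ hcov hmiss r q p hqr.symm h3 h4
      exact ⟨φ, hφ, a3, a2, a1⟩

end Pool.Agent.Results.MP_819c64_co.ThirtySixtyNinety
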