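import Pool.Agent.H79.TM.Pair

/-!
# Triangles with two given sides: one class of every 2-colouring of the plane contains them all, up to
# triangles with rational angles
-/

set_option autoImplicit false

namespace Pool.Agent.Results.MP_819c64_co.TwoSides

open EuclideanGeometry ComplexConjugate Real

/-- The Euclidean plane. -/
abbrev Plane : Type := EuclideanSpace ℝ (Fin 2)

/-- The triangle with vertices `p`, `q`, `r` occurs in `C`: the image of its vertex set under some
isometry of the plane is contained in `C`. -/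
def Occurs (C : Set Plane) (p q r : Plane) : Prop :=
  ∃ φ : Plane → Plane, Isometry φ ∧ φ p ∈ C ∧ φ q ∈ C ∧ φ r ∈ C

/-- Every triangle with two sides of lengths `a` and `b` occurs in `C` (triples of different points on
a line are included). -/
def ContainsAll (C : Set Plane) (a b : ℝ) : Prop :=
  ∀ p q r : Plane, dist p q = a → dist r q = b → p ≠ r → Occurs C p q r

/-- Every triangle with two sides of lengths `a` and `b` which enclose an angle that is an irrational
multiple of `π` occurs in `C`. -/
def ContainsIrrational (C : Set Plane) (a b : ℝ) : Prop :=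
  ∀ p q r : Plane, dist p q = a → dist r q = b → Irrational (∠ p q r / π) → Occurs C p q r

/-- Identification of the complex numbers with the plane. -/
noncomputable def e : ℂ ≃ₗᵢ[ℝ] Plane := Complex.orthonormalBasisOneI.repr

open Classical in
/-- The colouring of the complex plane given by the first class. -/
noncomputable def col (C₁ : Set Plane) (z : ℂ) : Bool := decide (e z ∈ C₁)

/-- Polar form of a triangle. -/
theorem polar {p q r : Plane} (hpq : p ≠ q) (hrq : r ≠ q) :
    ∃ u w : ℂ, ‖u‖ = 1 ∧ ‖w‖ = 1 ∧ w.re = Real.cos (∠ p q r) ∧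
      e.symm p - e.symm q = (dist p q : ℝ) * u ∧
      e.symm r - e.symm q = (dist r q : ℝ) * (u * w) := by
  have hp : dist p q ≠ 0 := dist_ne_zero.2 hpq
  have hr : dist r q ≠ 0 := dist_ne_zero.2 hrq
  have hp' : ((dist p q : ℝ) : ℂ) ≠ 0 := by exact_mod_cast hp
  have hr' : ((dist r q : ℝ) : ℂ) ≠ 0 := by exact_mod_cast hr
  have np : ‖e.symm p - e.symm q‖ = dist p q := by
    rw [← map_sub, LinearIsometryEquiv.norm_map, dist_eq_norm]
  have nr : ‖e.symm r - e.symm q‖ = dist r q := by
    rw [← map_sub, LinearIsometryEquiv.norm_map, dist_eq_norm]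
  set P := e.symm p - e.symm q with hP
  set R := e.symm r - e.symm q with hR
  have hPn : ‖P / (dist p q : ℝ)‖ = 1 := by
    rw [norm_div, np, Complex.norm_real, Real.norm_of_nonneg dist_nonneg, div_self hp]
  have hRn : ‖R / (dist r q : ℝ)‖ = 1 := by
    rw [norm_div, nr, Complex.norm_real, Real.norm_of_nonneg dist_nonneg, div_self hr]
  have huu : P / (dist p q : ℝ) * conj (P / (dist p q : ℝ)) = 1 := by
    rw [Complex.mul_conj, Complex.normSq_eq_norm_sq, hPn]
    norm_num
  refine ⟨P / (dist p q : ℝ), conj (P / (dist p q : ℝ)) * (R / (dist r q : ℝ)), hPn, ?_, ?_,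
    ?_, ?_⟩
  · rw [norm_mul, RCLike.norm_conj, hPn, hRn, one_mul]
  · rw [EuclideanGeometry.angle, InnerProductGeometry.cos_angle]
    have h1 : inner ℝ (p -ᵥ q) (r -ᵥ q) = inner ℝ P R := by
      rw [hP, hR, ← map_sub, ← map_sub, LinearIsometryEquiv.inner_map_map]
      rfl
    have h2 : ‖p -ᵥ q‖ = dist p q := (dist_eq_norm_vsub _ p q).symm
    have h3 : ‖r -ᵥ q‖ = dist r q := (dist_eq_norm_vsub _ r q).symm
    rw [h1, h2, h3, Complex.inner]
    have h4 : conj (P / (dist p q : ℝ)) * (R / (dist r q : ℝ)) =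
        ((dist p q * dist r q : ℝ) : ℂ)⁻¹ * (conj P * R) := by
      rw [map_div₀, Complex.conj_ofReal]
      push_cast
      field_simp
    rw [h4, ← Complex.ofReal_inv, Complex.re_ofReal_mul]
    field_simp
  · rw [mul_div_cancel₀]
    exact hp'
  · rw [← mul_assoc (P / ((dist p q : ℝ) : ℂ)), huu, one_mul, mul_div_cancel₀]
    exact hr'

open Pool.Agent.H93.EG in
/-- A triangle that does not occur in `C`, in complex notation. -/
theorem free {C : Set Plane} {p q r : Plane} (h : ¬ Occurs C p q r) (a b : ℝ) (ha : 0 < a)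
    (hb : 0 < b) (hpq : dist p q = a) (hrq : dist r q = b) (σ : UnitAddCircle)
    (hσ : (c σ).re = Real.cos (∠ p q r)) (θ w : ℂ) (hθ : ‖θ‖ = 1) (h1 : e w ∈ C)
    (h2 : e (θ * a + w) ∈ C) (h3 : e (θ * (b * c σ) + w) ∈ C) : False := by
  have hpq' : p ≠ q := dist_ne_zero.1 (by rw [hpq]; exact ha.ne')
  have hrq' : r ≠ q := dist_ne_zero.1 (by rw [hrq]; exact hb.ne')
  obtain ⟨u, v, hu, hv, hre, hP, hR⟩ := polar hpq' hrq'
  rw [hpq] at hP
  rw [hrq] at hR
  have huu : u * conj u = 1 := by
    rw [Complex.mul_conj, Complex.normSq_eq_norm_sq, hu]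
    norm_num
  have hp1 : (e.symm p - e.symm q) * conj u = a := by
    rw [hP]
    linear_combination (a : ℂ) * huu
  have hr1 : (e.symm r - e.symm q) * conj u = b * v := by
    rw [hR]
    linear_combination ((b : ℂ) * v) * huu
  have hcv : c σ = v ∨ c σ = conj v := by
    have e1 : (c σ).re = v.re := by rw [hσ, hre]
    have n1 : (c σ).re * (c σ).re + (c σ).im * (c σ).im = 1 := by
      have := Complex.normSq_eq_norm_sq (c σ)
      rw [norm_c, Complex.normSq_apply] at this
      linarith
    have n2 : v.re * v.re + v.im * v.im = 1 := by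
      have := Complex.normSq_eq_norm_sq v
      rw [hv, Complex.normSq_apply] at this
      linarith
    have e2 : (c σ).im * (c σ).im = v.im * v.im := by
      rw [e1] at n1
      linarith
    rcases mul_self_eq_mul_self_iff.1 e2 with h4 | h4
    · exact Or.inl (Complex.ext e1 h4)
    · right
      refine Complex.ext ?_ ?_
      · rw [Complex.conj_re, e1]
      · rw [Complex.conj_im, h4]
  rcases hcv with hcv | hcv
  · refine h ⟨fun z : Plane => e (w + (e.symm z - e.symm q) * conj u * θ), ?_, ?_, ?_, ?_⟩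
    · refine Isometry.of_dist_eq (fun z z' => ?_)
      rw [LinearIsometryEquiv.dist_map, dist_eq_norm, dist_eq_norm]
      have : w + (e.symm z - e.symm q) * conj u * θ - (w + (e.symm z' - e.symm q) * conj u * θ) =
          e.symm (z - z') * conj u * θ := by
        rw [map_sub]
        ring
      rw [this, norm_mul, norm_mul, RCLike.norm_conj, hu, hθ, mul_one, mul_one,
        LinearIsometryEquiv.norm_map]
    · show e (w + (e.symm p - e.symm q) * conj u * θ) ∈ C
      rw [hp1, show w + (a : ℂ) * θ = θ * a + w by ring]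
      exact h2
    · show e (w + (e.symm q - e.symm q) * conj u * θ) ∈ C
      rw [sub_self, zero_mul, zero_mul, add_zero]
      exact h1
    · show e (w + (e.symm r - e.symm q) * conj u * θ) ∈ C
      rw [hr1, ← hcv, show w + (b : ℂ) * c σ * θ = θ * (b * c σ) + w by ring]
      exact h3
  · refine h ⟨fun z : Plane => e (w + conj ((e.symm z - e.symm q) * conj u) * θ), ?_, ?_, ?_, ?_⟩
    · refine Isometry.of_dist_eq (fun z z' => ?_)
      rw [LinearIsometryEquiv.dist_map, dist_eq_norm, dist_eq_norm]
      have : w + conj ((e.symm z - e.symm q) * conj u) * θ -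
          (w + conj ((e.symm z' - e.symm q) * conj u) * θ) =
          conj (e.symm (z - z') * conj u) * θ := by
        rw [map_sub e.symm, ← add_sub_add_left_eq_sub]
        simp only [map_mul, map_sub]
        ring
      rw [this, norm_mul, RCLike.norm_conj, norm_mul, RCLike.norm_conj, hu, hθ, mul_one, mul_one,
        LinearIsometryEquiv.norm_map]
    · show e (w + conj ((e.symm p - e.symm q) * conj u) * θ) ∈ C
      rw [hp1, Complex.conj_ofReal, show w + (a : ℂ) * θ = θ * a + w by ring]
      exact h2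
    · show e (w + conj ((e.symm q - e.symm q) * conj u) * θ) ∈ C
      rw [sub_self, zero_mul, map_zero, zero_mul, add_zero]
      exact h1
    · show e (w + conj ((e.symm r - e.symm q) * conj u) * θ) ∈ C
      rw [hr1, map_mul, Complex.conj_ofReal, ← hcv,
        show w + (b : ℂ) * c σ * θ = θ * (b * c σ) + w by ring]
      exact h3

open Pool.Agent.H93.EG in
theorem c_angle (γ : ℝ) : c ((γ / (2 * π) : ℝ) : UnitAddCircle) = Complex.exp (γ * Complex.I) := by
  rw [c_coe]
  congr 1
  have : (π : ℂ) ≠ 0 := by exact_mod_cast Real.pi_ne_zero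
  push_cast
  field_simp

open Pool.Agent.H93.EG in
/-- The two triangles `p, q, r` and `p', q', r'` with two common sides, one of the two angles an
irrational multiple of `π`: they cannot be missing in different classes. -/
theorem not_both (C₁ C₂ : Set Plane) (hC : C₁ ∪ C₂ = Set.univ) (a b : ℝ) (ha : 0 < a)
    (hb : 0 < b) (p q r p' q' r' : Plane) (h1 : dist p q = a) (h2 : dist r q = b)
    (h1' : dist p' q' = a) (h2' : dist r' q' = b) (hpr : p ≠ r) (hpr' : p' ≠ r')
    (hirr : Irrational (∠ p q r / π) ∨ Irrational (∠ p' q' r' / π))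
    (hno : ¬ Occurs C₁ p q r) (hno' : ¬ Occurs C₂ p' q' r') : False := by
  classical
  set γ : Bool → ℝ := fun k => if k then ∠ p q r else ∠ p' q' r' with hγ
  set g : Bool → UnitAddCircle := fun k => ((γ k / (2 * π) : ℝ) : UnitAddCircle) with hg
  have hcg : ∀ k, c (g k) = Complex.exp (γ k * Complex.I) := fun k => c_angle (γ k)
  have hre : ∀ k, (c (g k)).re = Real.cos (γ k) := by
    intro k
    rw [hcg, Complex.exp_ofReal_mul_I_re]
  have hre' : ∀ k, (c (-(g k))).re = Real.cos (γ k) := by
    intro k
    rw [Pool.Agent.H79.TM.c_neg, Complex.conj_re, hre]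
  have hcc : ∀ k, 0 < Pool.Agent.H79.TM.cc a b (g k) := by
    have key : ∀ P Q R : Plane, dist P Q = a → dist R Q = b → P ≠ R →
        0 < (b * Real.cos (∠ P Q R) - a) ^ 2 + (b * Real.sin (∠ P Q R)) ^ 2 := by
      intro P Q R e1 e2 e3
      have e4 := law_cos P Q R
      rw [e1, e2] at e4
      have e5 : 0 < dist P R ^ 2 := pow_pos (dist_pos.2 e3) 2
      have e6 := Real.sin_sq_add_cos_sq (∠ P Q R)
      nlinarith
    have key2 : ∀ k, 0 < (b * Real.cos (γ k) - a) ^ 2 + (b * Real.sin (γ k)) ^ 2 := by
      intro k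
      cases k
      · exact key p' q' r' h1' h2' hpr'
      · exact key p q r h1 h2 hpr
    intro k
    unfold Pool.Agent.H79.TM.cc
    rw [norm_pos_iff]
    intro h0
    have e1 := congrArg Complex.re h0
    have e2 := congrArg Complex.im h0
    rw [hcg] at e1 e2
    rw [Complex.sub_re, Complex.re_ofReal_mul, Complex.exp_ofReal_mul_I_re, Complex.ofReal_re,
      Complex.zero_re] at e1
    rw [Complex.sub_im, Complex.im_ofReal_mul, Complex.exp_ofReal_mul_I_im, Complex.ofReal_im,
      Complex.zero_im, sub_zero] at e2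
    have e3 := key2 k
    rw [e1, e2] at e3
    norm_num at e3
  have herg1 : ∀ k, Irrational (γ k / π) → ∀ n : ℕ, 0 < n → n • g k ≠ 0 := by
    intro k hk n hn h
    have h3 : ((n • (γ k / (2 * π)) : ℝ) : UnitAddCircle) = 0 := by
      rw [AddCircle.coe_nsmul]
      exact h
    obtain ⟨m, hm⟩ := (AddCircle.coe_eq_zero_iff (1 : ℝ)).mp h3
    apply hk
    refine ⟨2 * (m : ℚ) / n, ?_⟩
    have hn' : (n : ℝ) ≠ 0 := by exact_mod_cast hn.ne'
    rw [zsmul_eq_mul, mul_one, nsmul_eq_mul] at hm
    push_cast
    rw [hm]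
    field_simp
  have hmem : ∀ z : ℂ, col C₁ z = true → e z ∈ C₁ := by
    intro z hz
    simpa [col] using hz
  have hmem' : ∀ z : ℂ, col C₁ z = false → e z ∈ C₂ := by
    intro z hz
    have h3 : e z ∉ C₁ := by simpa [col] using hz
    have h4 : e z ∈ C₁ ∪ C₂ := by rw [hC]; trivial
    exact h4.resolve_left h3
  refine Pool.Agent.H79.TM.pair (col C₁) a b ha hb g hcc ?_ ?_
  · rcases hirr with h | h
    · exact ⟨true, herg1 true h⟩
    · exact ⟨false, herg1 false h⟩
  · intro k σ hσ θ w hθ hf
    have hσ' : (c σ).re = Real.cos (γ k) := by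
      rcases hσ with h | h
      · rw [h, hre]
      · rw [h, hre']
    obtain ⟨f1, f2, f3⟩ := hf
    cases k
    · exact free hno' a b ha hb h1' h2' σ hσ' θ w hθ (hmem' _ f1) (hmem' _ f2) (hmem' _ f3)
    · exact free hno a b ha hb h1 h2 σ hσ' θ w hθ (hmem _ f1) (hmem _ f2) (hmem _ f3)

theorem ne_of_irr {p q r : Plane} (hpq : p ≠ q) (h : Irrational (∠ p q r / π)) : p ≠ r := by
  rintro rfl
  rw [angle_self_of_ne hpq, zero_div] at h
  exact absurd h (by simp)

/-- Let the plane be the union of two sets and let `a, b > 0`.  Then one of the two sets contains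
copies of all triangles with two sides `a`, `b`, or both sets contain copies of all
triangles whose sides `a`, `b` enclose an angle that is an irrational multiple of `π`. -/
theorem result (C₁ C₂ : Set Plane) (hC : C₁ ∪ C₂ = Set.univ) (a b : ℝ) (ha : 0 < a)
    (hb : 0 < b) :
    (ContainsAll C₁ a b ∨ ContainsAll C₂ a b) ∨
      (ContainsIrrational C₁ a b ∧ ContainsIrrational C₂ a b) := by
  by_contra hcon
  push Not at hcon
  obtain ⟨⟨hn1, hn2⟩, hn3⟩ := hcon
  unfold ContainsAll at hn1 hn2
  push Not at hn1 hn2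
  obtain ⟨p, q, r, k1, k2, k3, k5⟩ := hn1
  obtain ⟨p', q', r', k1', k2', k3', k5'⟩ := hn2
  have hne : ∀ p q : Plane, dist p q = a → p ≠ q := by
    intro p q h
    apply dist_ne_zero.1
    rw [h]
    exact ha.ne'
  by_cases hI : ContainsIrrational C₁ a b
  · have hI2 := hn3 hI
    unfold ContainsIrrational at hI2
    push Not at hI2
    obtain ⟨p'', q'', r'', m1, m2, m3, m4⟩ := hI2
    exact not_both C₁ C₂ hC a b ha hb p q r p'' q'' r'' k1 k2 m1 m2 k3
      (ne_of_irr (hne _ _ m1) m3) (Or.inr m3) k5 m4
  · unfold ContainsIrrational at hI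
    push Not at hI
    obtain ⟨p'', q'', r'', m1, m2, m3, m4⟩ := hI
    exact not_both C₁ C₂ hC a b ha hb p'' q'' r'' p' q' r' m1 m2 k1' k2'
      (ne_of_irr (hne _ _ m1) m3) k3' (Or.inl m3) m4 k5'

end Pool.Agent.Results.MP_819c64_co.TwoSides
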